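import Pool.Agent.K7.H80.CD2.Upper2
import Pool.Agent.R966.CD.LowDim2

/-!
# The conformal dimension of high-dimensional Brownian traces is one

`Pool.Agent.R966.CD.IsBM` (starting library): `IsBM P B` says that `B` is a standard Brownian motion in
`ℝ^n` started at `0` on the probability space `(Ω, P)`: measurable, with almost surely continuous
paths, independent increments, and centred Gaussian increments with covariance `(t - s)` times the
identity.
-/

set_option autoImplicit false

namespace Pool.Agent.Results.MP_d65fed_pr.ConfDimOne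

open MeasureTheory ProbabilityTheory Pool.Agent.R966.CD Pool.Agent.K7.H80.CD2
open scoped NNReal ENNReal

universe u

/-- A homeomorphism `f : X → Y` between metric spaces is quasisymmetric: there is a homeomorphism
`η : [0,∞) → [0,∞)` such that `d(x,a) ≤ t d(x,b)` implies `d(f x, f a) ≤ η t * d(f x, f b)`. -/
def Quasisymmetric {X Y : Type} [MetricSpace X] [MetricSpace Y] (f : X ≃ₜ Y) : Prop :=
  ∃ η : ℝ≥0 ≃ₜ ℝ≥0, ∀ (x a b : X) (t : ℝ≥0), dist x a ≤ t * dist x b →
    dist (f x) (f a) ≤ η t * dist (f x) (f b)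

/-- The conformal dimension of a metric space: the infimum of the Hausdorff dimensions of its
quasisymmetric images. -/
noncomputable def confDim (X : Type) [MetricSpace X] : ℝ≥0∞ :=
  ⨅ (Y : Type) (_ : MetricSpace Y) (f : X ≃ₜ Y) (_ : Quasisymmetric f), dimH (Set.univ : Set Y)

/-- The trace `B([0,1])`. -/
def trace {n : ℕ} {Ω : Type u} (B : ℝ≥0 → Ω → EuclideanSpace ℝ (Fin n)) (ω : Ω) :
    Set (EuclideanSpace ℝ (Fin n)) :=
  (fun t => B t ω) '' Set.Icc 0 1

theorem trace_eq {n : ℕ} {Ω : Type u} (B : ℝ≥0 → Ω → EuclideanSpace ℝ (Fin n)) (ω : Ω) :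
    trace B ω = Tr (path B ω) := by
  ext y
  constructor
  · rintro ⟨t, ht, rfl⟩
    refine ⟨t, ⟨t.2, by exact_mod_cast ht.2⟩, ?_⟩
    show B (t : ℝ).toNNReal ω = B t ω
    rw [Real.toNNReal_coe]
  · rintro ⟨t, ht, rfl⟩
    refine ⟨t.toNNReal, ⟨zero_le, ?_⟩, rfl⟩
    have := Real.toNNReal_le_toNNReal ht.2
    rwa [Real.toNNReal_one] at this

theorem confDim_le {n : ℕ} (T S : Set (EuclideanSpace ℝ (Fin n))) (h : T = S) (q : ℝ≥0)
    (hW : ∃ W : Wt S, (∃ η : ℝ≥0 ≃ₜ ℝ≥0, ∀ (x a c : S) (t : ℝ≥0), dist x a ≤ t * dist x c →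
      dist (W.homeo x) (W.homeo a) ≤ η t * dist (W.homeo x) (W.homeo c)) ∧
      dimH (Set.univ : Set W.Y) ≤ q) : confDim T ≤ q := by
  subst h
  obtain ⟨W, ⟨η, hη⟩, hd⟩ := hW
  refine le_trans ?_ hd
  unfold confDim
  exact iInf_le_of_le W.Y (iInf_le_of_le inferInstance (iInf_le_of_le W.homeo
    (iInf_le_of_le ⟨η, hη⟩ le_rfl)))

/-- a connected metric space with two points has Hausdorff dimension at least one -/
theorem one_le_dimH {Y : Type} [MetricSpace Y] (hY : IsPreconnected (Set.univ : Set Y)) {a b : Y}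
    (hab : a ≠ b) : 1 ≤ dimH (Set.univ : Set Y) := by
  have hf : LipschitzWith 1 fun y : Y => dist a y := LipschitzWith.dist_right a
  have h1 := hf.dimH_image_le (Set.univ : Set Y)
  refine le_trans ?_ h1
  have hpre : IsPreconnected ((fun y : Y => dist a y) '' Set.univ) :=
    hY.image _ hf.continuous.continuousOn
  have hd : 0 < dist a b := dist_pos.mpr hab
  have hsub : Set.Icc (0:ℝ) (dist a b) ⊆ (fun y : Y => dist a y) '' Set.univ :=
    hpre.Icc_subset ⟨a, Set.mem_univ _, dist_self a⟩ ⟨b, Set.mem_univ _, rfl⟩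
  have h2 : dimH (Set.Icc (0:ℝ) (dist a b)) = 1 := by
    have h3 := Real.dimH_of_nonempty_interior (E := ℝ) (s := Set.Icc (0:ℝ) (dist a b)) (by
      rw [interior_Icc]
      exact Set.nonempty_Ioo.mpr hd)
    rw [h3]
    simp
  rw [← h2]
  exact dimH_mono hsub

/-- the conformal dimension of a connected metric space with two points is at least one -/
theorem one_le_confDim {X : Type} [MetricSpace X] (hX : IsPreconnected (Set.univ : Set X)) {a b : X}
    (hab : a ≠ b) : 1 ≤ confDim X := by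
  unfold confDim
  refine le_iInf fun Y => le_iInf fun _ => le_iInf fun f => le_iInf fun _ => ?_
  refine one_le_dimH ?_ (f.injective.ne hab)
  have h := hX.image f f.continuous.continuousOn
  rwa [Set.image_univ, f.surjective.range_eq] at h

/-- **Main result.** For every `n ≥ 200` and every standard Brownian motion in `ℝ^n`, almost surely
the trace has conformal dimension one. -/
theorem result (n : ℕ) (hn : 200 ≤ n) (Ω : Type u) [MeasurableSpace Ω]
    (P : Measure Ω) [IsProbabilityMeasure P] (B : ℝ≥0 → Ω → EuclideanSpace ℝ (Fin n)) (hB : IsBM P B) :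
    ∀ᵐ ω ∂P, confDim (trace B ω) = 1 := by
  have hq : ∀ m : ℕ, ∀ᵐ ω ∂P, confDim (trace B ω) ≤ ((1 + 1 / ((m:ℝ≥0) + 1) : ℝ≥0) : ℝ≥0∞) := by
    intro m
    have h0 : (0:ℝ≥0) < 1 / ((m:ℝ≥0) + 1) := by positivity
    have h1 : 1 / ((m:ℝ≥0) + 1) ≤ 1 := by
      rw [div_le_one (by positivity)]
      exact le_add_self
    filter_upwards [upper2 (1 + 1 / ((m:ℝ≥0) + 1)) (lt_add_of_pos_right 1 h0) (by
      calc 1 + 1 / ((m:ℝ≥0) + 1) ≤ 1 + 1 := by gcongr
        _ = 2 := one_add_one_eq_two) n hn P B hB] with ω h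
    exact confDim_le _ _ (trace_eq B ω) _ h
  filter_upwards [ae_all_iff.mpr hq, low_dim hB (by omega), hB.cont] with ω h1 h2 h3
  apply le_antisymm
  · have hlim : Filter.Tendsto (fun m : ℕ => ((1 + 1 / ((m:ℝ≥0) + 1) : ℝ≥0) : ℝ≥0∞)) Filter.atTop
        (nhds ((1 : ℝ≥0) : ℝ≥0∞)) := by
      rw [ENNReal.tendsto_coe]
      have h4 : Filter.Tendsto (fun m : ℕ => 1 / ((m:ℝ≥0) + 1)) Filter.atTop (nhds 0) := by
        rw [← NNReal.tendsto_coe]
        push_cast
        exact tendsto_one_div_add_atTop_nhds_zero_nat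
      have h5 := h4.const_add 1
      rwa [add_zero] at h5
    exact ge_of_tendsto' hlim h1
  · have hpre : IsPreconnected (trace B ω) :=
      isPreconnected_Icc.image _ h3.continuousOn
    have hne : ¬ (trace B ω).Subsingleton := by
      intro hs
      have e : path B ω '' Set.Icc (0:ℝ) 1 = trace B ω := (trace_eq B ω).symm
      rw [e, dimH_subsingleton hs] at h2
      have h5 : (0:ℝ≥0∞) < ((3/2 : ℝ≥0) : ℝ≥0∞) := ENNReal.coe_pos.mpr (by positivity)
      exact absurd h2 (not_le.mpr h5)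
    rw [Set.not_subsingleton_iff] at hne
    obtain ⟨a, ha, b, hb, hab⟩ := hne
    refine one_le_confDim (X := trace B ω) ?_ (a := ⟨a, ha⟩) (b := ⟨b, hb⟩) ?_
    · exact (isPreconnected_iff_preconnectedSpace.mp hpre).isPreconnected_univ
    · intro h
      exact hab (congrArg Subtype.val h)

end Pool.Agent.Results.MP_d65fed_pr.ConfDimOne
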